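import Pool.Agent.Lib.MP_64ae42_mp_ins.Space

/-!
# MP_64ae42_mp: a periodic Jacobi matrix on a tree with all gaps closed and non-constant potential

The graph of the proof is the path `v₀ - m - v₁` with a loop at each of `v₀` and `v₁` (three
vertices, four edges; the universal cover is an infinite tree), all edge weights are `1` and the
potential is `1/4` at `m` and `0` at `v₀` and `v₁`. The spectrum of the lift to the universal cover
is one compact interval of positive length.
-/

set_option autoImplicit false

namespace Pool.Agent.Results.MP_64ae42_mp.ClosedGapsDumbbell

open Pool.Agent.MP_64ae42_mp Pool.Agent.MP_64ae42_mp_ins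

/-- There is a finite connected graph (vertices `V`, darts `D` with source `src` and reversal
`rev`; every edge is a pair of darts, loops and multiple edges are allowed) and a non-constant
potential `b` on it such that, with all edge weights equal to `1`, the graph has a universal cover
`T`, an infinite tree, on which the lift `H` of the Jacobi matrix is self-adjoint and has as
spectrum exactly one compact interval `[α, β]` with `α < β`: all gaps are closed. -/
theorem result : ∃ (V D : Type) (_ : Fintype V) (_ : Fintype D) (src : D → V) (rev : D → D)
    (b : V → ℝ), IsGraph src rev ∧ (∃ u v, b u ≠ b v) ∧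
    ∃ (W : Type) (T : SimpleGraph W) (p : W → V) (δ : T.Dart → D),
      Infinite W ∧ IsUniversalCover src rev T p δ ∧
      ∃ H : BOp W, IsSelfAdjoint H ∧ IsLiftedJacobi T p δ (fun _ => 1) b H ∧
        ∃ α β : ℝ, α < β ∧ spectrum ℂ H = (fun t : ℝ => (t : ℂ)) '' Set.Icc α β := by
  refine ⟨VV, DD, inferInstance, inferInstance, esrc, erev, epot (1 / 4),
    ⟨erev_erev, erev_ne, econn⟩, ⟨none, some false, ?_⟩, paths esrc erev (some false),
    treeG esrc erev (some false), tgt esrc erev (some false), del esrc erev (some false),
    infinite_paths, isUniversalCover esrc erev (some false) erev_erev, EH, EH_selfAdjoint,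
    EH_lift, EH_spectrum⟩
  simp [epot]

end Pool.Agent.Results.MP_64ae42_mp.ClosedGapsDumbbell
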